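import Pool.Agent.Work.MP_db9399_nc.Base

/-!
# MP_db9399, THEOREM NC, block XKEEP: parities of the outer edges by ownership
-/

set_option autoImplicit false
set_option linter.unusedSectionVars false

namespace Pool.Agent.Work.MP_db9399_nc.helper42

open Finset Classical
open Pool.Agent.Work.MP_db9399_all (nb)
open _root_.MP_db9399_co
open Pool.Agent.Work.MP_db9399_nc

universe u

section xkeep

variable {V : Type u} [Fintype V] {G : SimpleGraph V} {d x : ℕ} {f hp : V → V} {c0 g : V → ℕ}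

/-- many edges of `yg` at a spot with many outer edges -/
theorem ycount (h : NCtx G d x f hp c0 g) (i : V)
    (hi : (cl f i).card < 2 * ((cl f i).filter (fun v => (out G f v).Nonempty)).card) :
    (cl f i).card < 2 * ((univ : Finset (V × V)).filter
      (fun p => (yg G f hp).Adj p.1 p.2 ∧ f p.1 = i)).card + 4 := by
  set S := (univ : Finset (V × V)).filter (fun p => (yg G f hp).Adj p.1 p.2 ∧ f p.1 = i) with hS
  have h1 : (cl f i).filter (fun v => (out G f v).Nonempty) ⊆
      (cl f i).filter (fun v => hp v ≠ v) ∪ S.image Prod.fst := by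
    intro v hv
    rw [mem_filter, mem_cl] at hv
    obtain ⟨hvi, w, hw⟩ := hv
    rw [mem_out] at hw
    rw [mem_union]
    by_cases hh : hp v = v
    · right
      rw [mem_image]
      refine ⟨(v, w), ?_, rfl⟩
      rw [hS, mem_filter]
      refine ⟨mem_univ _, ⟨hw.1, fun h => hw.2 h.symm, ?_, ?_⟩, hvi⟩
      · show hp v ≠ w
        rw [hh]
        rintro rfl
        exact hw.2 rfl
      · show hp w ≠ v
        intro h2
        have h3 := h.hd.inv w
        rw [h2, hh] at h3
        subst h3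
        exact hw.2 rfl
    · left
      rw [mem_filter, mem_cl]
      exact ⟨hvi, hh⟩
  have h2 := card_le_card h1
  have h3 := card_union_le ((cl f i).filter (fun v => hp v ≠ v)) (S.image Prod.fst)
  have h4 := h.hcard i
  have h5 : (S.image Prod.fst).card ≤ S.card := card_image_le
  omega

/-- items with a given end -/
theorem ends_le (h : NCtx G d x f hp c0 g) {m : ℕ} (B : Finset V) (o : V → Fin m → V × V)
    (ho1 : ∀ i ∈ B, ∀ a, (yg G f hp).Adj (o i a).1 (o i a).2)
    (ho2 : ∀ i ∈ B, ∀ a, ∀ j ∈ B, ∀ b,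
        s((o i a).1, (o i a).2) = s((o j b).1, (o j b).2) → i = j ∧ a = b) (v : V) :
    ((univ : Finset {q : V × Fin m // q.1 ∈ B}).filter
      (fun q => (o q.1.1 q.1.2).1 = v ∨ (o q.1.1 q.1.2).2 = v)).card ≤ x := by
  refine le_trans ?_ (h.od v)
  have key : ∀ q : {q : V × Fin m // q.1 ∈ B}, ((o q.1.1 q.1.2).1 = v ∨ (o q.1.1 q.1.2).2 = v) →
      s((o q.1.1 q.1.2).1, (o q.1.1 q.1.2).2) =
        s(v, if (o q.1.1 q.1.2).1 = v then (o q.1.1 q.1.2).2 else (o q.1.1 q.1.2).1) := by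
    intro q hq
    by_cases h1 : (o q.1.1 q.1.2).1 = v
    · rw [if_pos h1, h1]
    · rw [if_neg h1]
      rcases hq with hq | hq
      · exact absurd hq h1
      · rw [hq, Sym2.eq_swap]
  refine card_le_card_of_injOn (fun q => if (o q.1.1 q.1.2).1 = v then (o q.1.1 q.1.2).2
    else (o q.1.1 q.1.2).1) ?_ ?_
  · intro q hq
    rw [mem_coe, mem_filter] at hq
    have hy := ho1 q.1.1 q.2 q.1.2
    show (if (o q.1.1 q.1.2).1 = v then (o q.1.1 q.1.2).2 else (o q.1.1 q.1.2).1) ∈ _
    rw [mem_coe, mem_out]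
    by_cases h1 : (o q.1.1 q.1.2).1 = v
    · rw [if_pos h1]
      rw [h1] at hy
      exact ⟨hy.1, fun h => hy.2.1 h.symm⟩
    · rw [if_neg h1]
      rcases hq.2 with h2 | h2
      · exact absurd h2 h1
      · rw [h2] at hy
        exact ⟨hy.1.symm, hy.2.1⟩
  · intro q hq q' hq' he
    rw [mem_coe, mem_filter] at hq hq'
    have h1 := key q hq.2
    have h2 := key q' hq'.2
    have he' : (if (o q.1.1 q.1.2).1 = v then (o q.1.1 q.1.2).2 else (o q.1.1 q.1.2).1) =
      (if (o q'.1.1 q'.1.2).1 = v then (o q'.1.1 q'.1.2).2 else (o q'.1.1 q'.1.2).1) := he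
    rw [he', ← h2] at h1
    obtain ⟨h3, h4⟩ := ho2 q.1.1 q.2 q.1.2 q'.1.1 q'.2 q'.1.2 h1
    exact Subtype.ext (Prod.ext h3 h4)

/-- common vertex -/
def sh (p q : V × V) : Prop := p.1 = q.1 ∨ p.1 = q.2 ∨ p.2 = q.1 ∨ p.2 = q.2

theorem sh_symm {p q : V × V} (h : sh p q) : sh q p := by
  rcases h with h | h | h | h
  · exact Or.inl h.symm
  · exact Or.inr (Or.inr (Or.inl h.symm))
  · exact Or.inr (Or.inl h.symm)
  · exact Or.inr (Or.inr (Or.inr h.symm))

/-- the greedy colouring of the items of the owners in `B` -/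
theorem stage (hG : Stmt_GRS.{u}) (h : NCtx G d x f hp c0 g) (c : V → ℕ) (B : Finset V)
    (o : V → Fin (200 * x) → V × V)
    (ho1 : ∀ i ∈ B, ∀ a, (yg G f hp).Adj (o i a).1 (o i a).2)
    (ho2 : ∀ i ∈ B, ∀ a, ∀ j ∈ B, ∀ b,
        s((o i a).1, (o i a).2) = s((o j b).1, (o j b).2) → i = j ∧ a = b)
    (P : Finset ℕ) (hP : P.card = 220 * x + 5) :
    ∃ t : V → Fin (200 * x) → ℕ,
      (∀ i ∈ B, ∀ a, t i a ∈ P ∧ t i a ≠ c (o i a).1 ∧ t i a ≠ c (o i a).2 ∧
        t i a ≠ g (o i a).1 ∧ t i a ≠ g (o i a).2) ∧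
      (∀ i ∈ B, ∀ a, ∀ j ∈ B, ∀ b, (i = j ∨ sh (o i a) (o j b)) → t i a = t j b →
        i = j ∧ a = b) ∧
      ∀ j b, ((univ : Finset (V × Fin (200 * x))).filter (fun q => q.1 ∈ B ∧
        (f (o q.1 q.2).1 = j ∨ f (o q.1 q.2).2 = j) ∧ t q.1 q.2 = b)).card ≤
          (cl f j).card / 9 + 1 := by
  obtain ⟨t, ht1, ht2, ht3⟩ := hG (ι := {q : V × Fin (200 * x) // q.1 ∈ B}) (β := V)
    (fun q q' => q.1.1 = q'.1.1 ∨ sh (o q.1.1 q.1.2) (o q'.1.1 q'.1.2))
    (fun q => f (o q.1.1 q.1.2).1) (fun q => f (o q.1.1 q.1.2).2)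
    (fun j => (cl f j).card / 9 + 1) (9 * x) (202 * x) 4 P
    (fun q => {c (o q.1.1 q.1.2).1, c (o q.1.1 q.1.2).2, g (o q.1.1 q.1.2).1,
      g (o q.1.1 q.1.2).2})
    (by
      rintro q q' (h1 | h1)
      · exact Or.inl h1.symm
      · exact Or.inr (sh_symm h1))
    (by
      intro q
      refine (card_le_card (t :=
          (univ.filter (fun q' : {q : V × Fin (200 * x) // q.1 ∈ B} => q.1.1 = q'.1.1)) ∪
          ((univ.filter (fun q' : {q : V × Fin (200 * x) // q.1 ∈ B} =>
            (o q'.1.1 q'.1.2).1 = (o q.1.1 q.1.2).1 ∨ (o q'.1.1 q'.1.2).2 = (o q.1.1 q.1.2).1)) ∪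
          (univ.filter (fun q' : {q : V × Fin (200 * x) // q.1 ∈ B} =>
            (o q'.1.1 q'.1.2).1 = (o q.1.1 q.1.2).2 ∨
              (o q'.1.1 q'.1.2).2 = (o q.1.1 q.1.2).2)))) ?_).trans ?_
      · intro q' hq'
        simp only [mem_union, mem_filter, mem_univ, true_and] at hq' ⊢
        rcases hq' with h2 | h2 | h2 | h2 | h2
        · exact Or.inl h2
        · exact Or.inr (Or.inl (Or.inl h2.symm))
        · exact Or.inr (Or.inl (Or.inr h2.symm))
        · exact Or.inr (Or.inr (Or.inl h2.symm))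
        · exact Or.inr (Or.inr (Or.inr h2.symm))
      have h3 : (univ.filter (fun q' : {q : V × Fin (200 * x) // q.1 ∈ B} =>
          q.1.1 = q'.1.1)).card ≤ (univ : Finset (Fin (200 * x))).card := by
        refine card_le_card_of_injOn (fun q' => q'.1.2) (fun _ _ => by simp) ?_
        intro a ha b hb hab
        rw [mem_coe, mem_filter] at ha hb
        exact Subtype.ext (Prod.ext (ha.2.symm.trans hb.2) hab)
      have h4 : (univ : Finset (Fin (200 * x))).card = 200 * x := by simp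
      have h5 := ends_le h B o ho1 ho2 (o q.1.1 q.1.2).1
      have h6 := ends_le h B o ho1 ho2 (o q.1.1 q.1.2).2
      refine (card_union_le _ _).trans ?_
      refine (Nat.add_le_add h3 ((card_union_le _ _).trans (Nat.add_le_add h5 h6))).trans ?_
      omega)
    (fun q => card_le_four)
    (fun j => Nat.le_add_left _ _)
    (by
      intro j
      refine ((card_le_card (t := (cl f j).biUnion (fun v =>
          univ.filter (fun q : {q : V × Fin (200 * x) // q.1 ∈ B} =>
            (o q.1.1 q.1.2).1 = v ∨ (o q.1.1 q.1.2).2 = v))) ?_).trans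
        (card_biUnion_le_card_mul _ _ x fun v _ => ends_le h B o ho1 ho2 v)).trans ?_
      · intro q hq
        rw [mem_filter] at hq
        rw [mem_biUnion]
        rcases hq.2 with h2 | h2
        · exact ⟨_, mem_cl.2 h2, mem_filter.2 ⟨mem_univ _, Or.inl rfl⟩⟩
        · exact ⟨_, mem_cl.2 h2, mem_filter.2 ⟨mem_univ _, Or.inr rfl⟩⟩
      have h3 : (cl f j).card ≤ 9 * ((cl f j).card / 9 + 1) := by omega
      calc (cl f j).card * x ≤ (9 * ((cl f j).card / 9 + 1)) * x := Nat.mul_le_mul_right _ h3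
        _ = 9 * x * ((cl f j).card / 9 + 1) := by ring)
    (by omega)
  refine ⟨fun i a => if hi : i ∈ B then t ⟨(i, a), hi⟩ else 0, ?_, ?_, ?_⟩
  · intro i hi a
    have h1 := ht1 ⟨(i, a), hi⟩
    simp only [dif_pos hi]
    simp only [mem_insert, mem_singleton, not_or] at h1
    exact ⟨h1.1, h1.2.1, h1.2.2.1, h1.2.2.2.1, h1.2.2.2.2⟩
  · intro i hi a j hj b hij he
    simp only [dif_pos hi, dif_pos hj] at he
    by_contra hne
    refine ht2 ⟨(i, a), hi⟩ ⟨(j, b), hj⟩ ?_ hij he
    intro h1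
    have h2 := congrArg Subtype.val h1
    exact hne ⟨congrArg Prod.fst h2, congrArg Prod.snd h2⟩
  · intro j b
    refine le_trans ?_ (ht3 j b)
    refine (card_le_card (t := (univ.filter
      (fun q : {q : V × Fin (200 * x) // q.1 ∈ B} => (f (o q.1.1 q.1.2).1 = j ∨
        f (o q.1.1 q.1.2).2 = j) ∧ t q = b)).image Subtype.val) ?_).trans
        (card_image_le.trans (le_of_eq ?_))
    · intro q hq
      rw [mem_filter] at hq
      rw [mem_image]
      obtain ⟨-, hq1, hq2, hq3⟩ := hq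
      simp only [dif_pos hq1] at hq3
      exact ⟨⟨q, hq1⟩, mem_filter.2 ⟨mem_univ _, hq2, hq3⟩, rfl⟩
    · congr 1

end xkeep

theorem stmt_XKEEP (hC : Stmt_CUT.{u}) (hO : Stmt_OWN.{u}) (hG : Stmt_GRS.{u}) :
    Stmt_XKEEP.{u} := by
  intro V _ G d x f hp c0 g c h hcp hce
  obtain ⟨τ, hτ⟩ := hC (yg G f hp) f (fun v w hvw => hvw.2.1)
  obtain ⟨B, hB⟩ : ∃ B : Finset V, ∀ i, i ∈ B ↔ (d ≤ 2 * (cl f i).card ∧ (cl f i).card <
      2 * ((cl f i).filter (fun v => (out G f v).Nonempty)).card) :=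
    ⟨univ.filter (fun i => d ≤ 2 * (cl f i).card ∧ (cl f i).card <
      2 * ((cl f i).filter (fun v => (out G f v).Nonempty)).card), fun i => by simp⟩
  obtain ⟨o, ho1, ho2⟩ := hO (yg G f hp) f τ (200 * x) B (by
    intro i hi
    have h0 := (hB i).1 hi
    have h1 := ycount h i h0.2
    have h2 := hτ i
    have h3 := h.xd
    have h4 := h.x1
    omega)
  have hY : ∀ i ∈ B, ∀ a, (yg G f hp).Adj (o i a).1 (o i a).2 := fun i hi a => (ho1 i hi a).1
  -- the palettes
  obtain ⟨Pal, hPal1, hPal2, hPal3⟩ : ∃ Pal : Bool → Finset ℕ,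
      (∀ s, (Pal s).card = 220 * x + 5) ∧ (∀ s, Pal s ⊆ Ico (20 * x + 5) (460 * x + 15)) ∧
      ∀ s s' b, b ∈ Pal s → b ∈ Pal s' → s = s' := by
    refine ⟨fun s => if s = true then Ico (20 * x + 5) (240 * x + 10) else
      Ico (240 * x + 10) (460 * x + 15), ?_, ?_, ?_⟩
    · intro s
      cases s
      · simp only [Bool.false_eq_true, if_false, Nat.card_Ico]; omega
      · simp only [if_true, Nat.card_Ico]; omega
    · intro s b hb
      cases s
      · simp only [Bool.false_eq_true, if_false, mem_Ico] at hb ⊢; omega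
      · simp only [if_true, mem_Ico] at hb ⊢; omega
    · intro s s' b hb hb'
      cases s <;> cases s' <;>
        simp only [if_true, Bool.false_eq_true, if_false, mem_Ico] at hb hb' ⊢ <;> omega
  have key : ∀ s : Bool, ∃ t : V → Fin (200 * x) → ℕ,
      (∀ i ∈ B.filter (fun i => τ i = s), ∀ a, t i a ∈ Pal s ∧ t i a ≠ c (o i a).1 ∧
        t i a ≠ c (o i a).2 ∧ t i a ≠ g (o i a).1 ∧ t i a ≠ g (o i a).2) ∧
      (∀ i ∈ B.filter (fun i => τ i = s), ∀ a, ∀ j ∈ B.filter (fun i => τ i = s), ∀ b,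
        (i = j ∨ sh (o i a) (o j b)) → t i a = t j b → i = j ∧ a = b) ∧
      ∀ j b, ((univ : Finset (V × Fin (200 * x))).filter
        (fun q => q.1 ∈ B.filter (fun i => τ i = s) ∧
        (f (o q.1 q.2).1 = j ∨ f (o q.1 q.2).2 = j) ∧ t q.1 q.2 = b)).card ≤
          (cl f j).card / 9 + 1 := fun s =>
    stage hG h c (B.filter (fun i => τ i = s)) o
      (fun i hi a => hY i (mem_filter.1 hi).1 a)
      (fun i hi a j hj b => ho2 i (mem_filter.1 hi).1 a j (mem_filter.1 hj).1 b) (Pal s) (hPal1 s)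
  choose T hT1 hT2 hT3 using key
  obtain ⟨col, hcol⟩ : ∃ col : V → Fin (200 * x) → ℕ, ∀ i a, col i a = T (τ i) i a :=
    ⟨fun i a => T (τ i) i a, fun i a => rfl⟩
  have c1 : ∀ i ∈ B, ∀ a, col i a ∈ Pal (τ i) ∧ col i a ≠ c (o i a).1 ∧
        col i a ≠ c (o i a).2 ∧ col i a ≠ g (o i a).1 ∧ col i a ≠ g (o i a).2 := by
    intro i hi a
    rw [hcol]
    exact hT1 (τ i) i (mem_filter.2 ⟨hi, rfl⟩) a
  have c2 : ∀ i ∈ B, ∀ a, ∀ j ∈ B, ∀ b, (i = j ∨ sh (o i a) (o j b)) → col i a = col j b →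
      i = j ∧ a = b := by
    intro i hi a j hj b hij he
    have h1 : τ i = τ j := hPal3 _ _ (col i a) (c1 i hi a).1 (by rw [he]; exact (c1 j hj b).1)
    rw [hcol, hcol, ← h1] at he
    exact hT2 (τ i) i (mem_filter.2 ⟨hi, rfl⟩) a j (mem_filter.2 ⟨hj, h1.symm⟩) b hij he
  have c3 : ∀ j b, ((univ : Finset (V × Fin (200 * x))).filter (fun q => q.1 ∈ B ∧
        (f (o q.1 q.2).1 = j ∨ f (o q.1 q.2).2 = j) ∧ col q.1 q.2 = b)).card ≤
          (cl f j).card / 9 + 1 := by
    intro j b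
    by_cases hs : ∃ s, b ∈ Pal s
    · obtain ⟨s, hs⟩ := hs
      refine (card_le_card ?_).trans (hT3 s j b)
      intro q hq
      rw [mem_filter] at hq ⊢
      obtain ⟨-, h1, h2, h3⟩ := hq
      have h4 : τ q.1 = s := hPal3 _ _ b (by rw [← h3]; exact (c1 _ h1 _).1) hs
      refine ⟨mem_univ _, mem_filter.2 ⟨h1, h4⟩, h2, ?_⟩
      rw [hcol, h4] at h3
      exact h3
    · refine (le_of_eq ?_).trans (Nat.zero_le _)
      rw [card_eq_zero, filter_eq_empty_iff]
      rintro q - ⟨h1, -, h3⟩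
      exact hs ⟨_, by rw [← h3]; exact (c1 _ h1 _).1⟩
  -- the kept edges
  obtain ⟨A, hA⟩ : ∃ A : V → ℕ → Finset V, ∀ i b v, v ∈ A i b ↔ (f v = i ∧ c v ≠ b ∧
      ¬ (hp v ≠ v ∧ f (hp v) ≠ f v ∧ g v = b)) :=
    ⟨fun i b => (cl f i).filter (fun v => c v ≠ b ∧ ¬ (hp v ≠ v ∧ f (hp v) ≠ f v ∧ g v = b)),
      fun i b v => by rw [mem_filter, mem_cl]⟩
  obtain ⟨te, hte⟩ : ∃ te : Sym2 V → ℕ, ∀ i ∈ B, ∀ a, te s((o i a).1, (o i a).2) = col i a := by
    refine ⟨fun e => if hh : ∃ q : V × Fin (200 * x), q.1 ∈ B ∧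
      s((o q.1 q.2).1, (o q.1 q.2).2) = e then col hh.choose.1 hh.choose.2 else 0, ?_⟩
    intro i hi a
    have hh : ∃ q : V × Fin (200 * x), q.1 ∈ B ∧
      s((o q.1 q.2).1, (o q.1 q.2).2) = s((o i a).1, (o i a).2) := ⟨(i, a), hi, rfl⟩
    show (if hh : ∃ q : V × Fin (200 * x), q.1 ∈ B ∧
      s((o q.1 q.2).1, (o q.1 q.2).2) = s((o i a).1, (o i a).2) then
        col hh.choose.1 hh.choose.2 else 0) = _
    rw [dif_pos hh]
    obtain ⟨h1, h2⟩ := hh.choose_spec
    obtain ⟨h3, h4⟩ := ho2 _ h1 _ i hi a h2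
    rw [h3, h4]
  let Kp : SimpleGraph V :=
    { Adj := fun v w => ∃ i ∈ B, ∃ a, s((o i a).1, (o i a).2) = s(v, w) ∧
        Odd (A i (col i a)).card
      symm := ⟨by
        rintro v w ⟨i, hi, a, h1, h2⟩
        exact ⟨i, hi, a, by rw [h1, Sym2.eq_swap], h2⟩⟩
      loopless := ⟨by
        rintro v ⟨i, hi, a, h1, h2⟩
        have h3 := hY i hi a
        rw [Sym2.eq_iff] at h1
        rcases h1 with ⟨h4, h5⟩ | ⟨h4, h5⟩
        · rw [h4, h5] at h3; exact h3.2.1 rfl
        · rw [h4, h5] at h3; exact h3.2.1 rfl⟩ }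
  have hK : ∀ v w, Kp.Adj v w → ∃ i ∈ B, ∃ a, ((o i a).1 = v ∧ (o i a).2 = w ∨
      (o i a).1 = w ∧ (o i a).2 = v) ∧ Odd (A i (col i a)).card ∧ te s(v, w) = col i a := by
    rintro v w ⟨i, hi, a, h1, h2⟩
    exact ⟨i, hi, a, Sym2.eq_iff.1 h1, h2, by rw [← h1]; exact hte i hi a⟩
  refine ⟨Kp, fun v w => te s(v, w), ?_, ⟨?_, ?_, ?_⟩, ?_, ?_, ?_, ?_⟩
  · -- le
    intro v w hvw
    obtain ⟨i, hi, a, h1, -, -⟩ := hK v w hvw
    have h3 := hY i hi a
    rcases h1 with ⟨h4, h5⟩ | ⟨h4, h5⟩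
    · rw [h4, h5] at h3; exact h3
    · rw [h4, h5] at h3; exact h3.symm
  · intro v w
    show te s(v, w) = te s(w, v)
    rw [Sym2.eq_swap]
  · intro v w hvw
    obtain ⟨i, hi, a, -, -, h2⟩ := hK v w hvw
    show te s(v, w) ∈ _
    rw [h2]
    exact hPal2 _ (c1 i hi a).1
  · intro v w hw w' hw' he
    rw [mem_coe, mem_nb] at hw hw'
    obtain ⟨i, hi, a, h1, -, h2⟩ := hK v w hw
    obtain ⟨j, hj, b, h3, -, h4⟩ := hK v w' hw'
    have he' : te s(v, w) = te s(v, w') := he
    rw [h2, h4] at he'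
    have hs : sh (o i a) (o j b) := by
      rcases h1 with h1 | h1 <;> rcases h3 with h3 | h3
      · exact Or.inl (h1.1.trans h3.1.symm)
      · exact Or.inr (Or.inl (h1.1.trans h3.2.symm))
      · exact Or.inr (Or.inr (Or.inl (h1.2.trans h3.1.symm)))
      · exact Or.inr (Or.inr (Or.inr (h1.2.trans h3.2.symm)))
    obtain ⟨h5, h6⟩ := c2 i hi a j hj b (Or.inr hs) he'
    subst h5; subst h6
    have h7 := (hY i hi a).2.1
    rcases h1 with h1 | h1 <;> rcases h3 with h3 | h3
    · exact h1.2.symm.trans h3.2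
    · exact absurd (by rw [h1.1, h3.2]) h7
    · exact absurd (by rw [h1.2, h3.1]) h7
    · exact h1.1.symm.trans h3.1
  · intro v w hvw
    obtain ⟨i, hi, a, h1, -, h2⟩ := hK v w hvw
    show te s(v, w) ≠ c v
    rw [h2]
    have h3 := c1 i hi a
    rcases h1 with h1 | h1
    · rw [← h1.1]; exact h3.2.1
    · rw [← h1.2]; exact h3.2.2.1
  · intro v w hvw _
    obtain ⟨i, hi, a, h1, -, h2⟩ := hK v w hvw
    show te s(v, w) ≠ g v
    rw [h2]
    have h3 := c1 i hi a
    rcases h1 with h1 | h1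
    · rw [← h1.1]; exact h3.2.2.2.1
    · rw [← h1.2]; exact h3.2.2.2.2
  · -- load
    intro i b hi
    have h1 : ((cl f i).filter (fun v => ∃ w, Kp.Adj v w ∧ te s(v, w) = b)).card ≤
        (cl f i).card / 9 + 1 := by
      refine le_trans ?_ (c3 i b)
      refine (card_le_card (t := ((univ : Finset (V × Fin (200 * x))).filter (fun q => q.1 ∈ B ∧
        (f (o q.1 q.2).1 = i ∨ f (o q.1 q.2).2 = i) ∧ col q.1 q.2 = b)).image
          (fun q => if f (o q.1 q.2).1 = i then (o q.1 q.2).1 else (o q.1 q.2).2)) ?_).trans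
          card_image_le
      intro v hv
      rw [mem_filter, mem_cl] at hv
      obtain ⟨hvi, w, hvw, hb⟩ := hv
      obtain ⟨j, hj, a, h1, -, h2⟩ := hK v w hvw
      rw [mem_image]
      refine ⟨(j, a), mem_filter.2 ⟨mem_univ _, hj, ?_, ?_⟩, ?_⟩
      · rcases h1 with h1 | h1
        · exact Or.inl (by rw [h1.1]; exact hvi)
        · exact Or.inr (by rw [h1.2]; exact hvi)
      · rw [← h2]; exact hb
      · show (if f (o j a).1 = i then (o j a).1 else (o j a).2) = v
        rcases h1 with h1 | h1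
        · rw [if_pos (by rw [h1.1]; exact hvi), h1.1]
        · rw [if_neg, h1.2]
          intro h3
          have h4 := (hY j hj a).2.1
          rw [h1.2, hvi] at h4
          exact h4 h3
    have h2 : 8 * ((cl f i).card / 9 + 1) ≤ (cl f i).card := by omega
    refine (le_of_eq ?_).trans ((Nat.mul_le_mul_left 8 h1).trans h2)
    congr!
  · -- par
    intro i hi
    by_cases hcase : 2 * ((cl f i).filter (fun v => (out G f v).Nonempty)).card ≤ (cl f i).card
    · exact Or.inl hcase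
    · right
      have hiB : i ∈ B := (hB i).2 ⟨hi, by omega⟩
      have hinj : Function.Injective (col i) := fun a b hab => (c2 i hiB a i hiB b (Or.inl rfl) hab).2
      have hcard : ((univ : Finset (Fin (200 * x))).image (col i)).card = 200 * x := by
        rw [card_image_of_injective _ hinj]; simp
      rw [← hcard, ← card_union_of_disjoint]
      · refine card_le_card (union_subset (filter_subset _ _) ?_)
        intro b hb
        rw [mem_image] at hb
        obtain ⟨a, -, rfl⟩ := hb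
        exact hPal2 _ (c1 i hiB a).1
      · rw [disjoint_left]
        intro b hb hb'
        rw [mem_image] at hb'
        obtain ⟨a, -, rfl⟩ := hb'
        rw [mem_filter] at hb
        have hodd := hb.2
        have hiff : ∀ v, f v = i → ((∃ w, Kp.Adj v w ∧ te s(v, w) = col i a) ↔
            (Odd (A i (col i a)).card ∧ v = (o i a).1)) := by
          intro v hv
          constructor
          · rintro ⟨w, hvw, hb⟩
            obtain ⟨j, hj, a', h1, h2, h3⟩ := hK v w hvw
            rw [h3] at hb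
            have hττ : τ j = τ i := hPal3 _ _ (col j a') (c1 j hj a').1
              (by rw [hb]; exact (c1 i hiB a).1)
            rcases h1 with h1 | h1
            · have h4 := (ho1 j hj a').2.1
              rw [h1.1, hv] at h4
              subst h4
              have h5 := (c2 i hj a' i hiB a (Or.inl rfl) hb).2
              subst h5
              exact ⟨h2, h1.1.symm⟩
            · have h4 := (ho1 j hj a').2.2
              rw [h1.2, hv, hττ] at h4
              exact absurd rfl h4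
          · rintro ⟨h1, rfl⟩
            exact ⟨(o i a).2, ⟨i, hiB, a, rfl, h1⟩, hte i hiB a⟩
        by_cases hkept : Odd (A i (col i a)).card
        · have hmem : (o i a).1 ∈ A i (col i a) := by
            rw [hA]
            refine ⟨(ho1 i hiB a).2.1, fun h1 => (c1 i hiB a).2.1 h1.symm, ?_⟩
            rintro ⟨-, -, h1⟩
            exact (c1 i hiB a).2.2.2.1 h1.symm
          have heq : ((cl f i).filter (fun v => c v ≠ col i a ∧
              ¬ (hp v ≠ v ∧ f (hp v) ≠ f v ∧ g v = col i a) ∧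
              ∀ w, ¬ (Kp.Adj v w ∧ te s(v, w) = col i a))) =
              (A i (col i a)).erase (o i a).1 := by
            ext v
            rw [mem_filter, mem_erase, hA, mem_cl]
            constructor
            · rintro ⟨h1, h2, h3, h4⟩
              refine ⟨?_, h1, h2, h3⟩
              intro h5
              obtain ⟨w, hw⟩ := (hiff v h1).2 ⟨hkept, h5⟩
              exact h4 w hw
            · rintro ⟨h1, h2, h3, h4⟩
              exact ⟨h2, h3, h4, fun w hw => h1 ((hiff v h2).1 ⟨w, hw⟩).2⟩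
          have hodd' : Odd ((A i (col i a)).erase (o i a).1).card := by
            rw [← heq]; convert hodd
          rw [card_erase_of_mem hmem] at hodd'
          have hpos := card_pos.2 ⟨_, hmem⟩
          obtain ⟨r, hr⟩ := hkept
          obtain ⟨r', hr'⟩ := hodd'
          omega
        · apply hkept
          have heq : ((cl f i).filter (fun v => c v ≠ col i a ∧
              ¬ (hp v ≠ v ∧ f (hp v) ≠ f v ∧ g v = col i a) ∧
              ∀ w, ¬ (Kp.Adj v w ∧ te s(v, w) = col i a))) = A i (col i a) := by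
            ext v
            rw [mem_filter, hA, mem_cl]
            constructor
            · rintro ⟨h1, h2, h3, h4⟩
              exact ⟨h1, h2, h3⟩
            · rintro ⟨h2, h3, h4⟩
              exact ⟨h2, h3, h4, fun w hw => hkept ((hiff v h2).1 ⟨w, hw⟩).1⟩
          rw [← heq]
          convert hodd

end Pool.Agent.Work.MP_db9399_nc.helper42
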